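import Pool.Agent.Y116.UV.Graph

/-!
# The hypersurface `x y z = 1` is the torus `𝔾_m × 𝔾_m`
-/

set_option autoImplicit false

open MvPolynomial Pool.Agent.Y116.UV

namespace Pool.Agent.Q282.UM

variable (R : Type) [CommRing R]

/-- the functions on the torus of dimension two -/
abbrev LL : Type := LaurentPolynomial (LaurentPolynomial R)

/-- the trilinear form `x y z` -/
def one3 : Fin 1 → Fin 1 → Fin 1 → R := fun _ _ _ => 1

lemma tri_one3 : tri (one3 R) = X (Sum.inl 0) * X (Sum.inr (Sum.inl 0)) * X (Sum.inr (Sum.inr 0)) := by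
  simp [tri, one3]

/-- the coordinates of the torus -/
noncomputable def tv : Fin 1 ⊕ (Fin 1 ⊕ Fin 1) → LL R
  | Sum.inl _ => LaurentPolynomial.T 1
  | Sum.inr (Sum.inl _) => LaurentPolynomial.C (LaurentPolynomial.T 1)
  | Sum.inr (Sum.inr _) => LaurentPolynomial.T (-1) * LaurentPolynomial.C (LaurentPolynomial.T (-1))

lemma tv_rel : tv R (Sum.inl 0) * tv R (Sum.inr (Sum.inl 0)) * tv R (Sum.inr (Sum.inr 0)) = 1 := by
  have h1 : (LaurentPolynomial.T 1 : LL R) * LaurentPolynomial.T (-1) = 1 := by
    rw [← LaurentPolynomial.T_add, add_neg_cancel, LaurentPolynomial.T_zero]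
  have h2 : (LaurentPolynomial.T 1 : LaurentPolynomial R) * LaurentPolynomial.T (-1) = 1 := by
    rw [← LaurentPolynomial.T_add, add_neg_cancel, LaurentPolynomial.T_zero]
  have h3 : (LaurentPolynomial.C (LaurentPolynomial.T 1) : LL R) *
      LaurentPolynomial.C (LaurentPolynomial.T (-1)) = 1 := by
    rw [← map_mul, h2, map_one]
  change LaurentPolynomial.T 1 * LaurentPolynomial.C (LaurentPolynomial.T 1) *
    (LaurentPolynomial.T (-1) * LaurentPolynomial.C (LaurentPolynomial.T (-1))) = (1 : LL R)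
  linear_combination h1 * (LaurentPolynomial.C (LaurentPolynomial.T 1) *
    LaurentPolynomial.C (LaurentPolynomial.T (-1)) : LL R) + h3

/-- to the torus -/
noncomputable def toLL : Hyp (one3 R) →ₐ[R] LL R :=
  Ideal.Quotient.liftₐ _ (aeval (tv R)) (by
    intro a ha
    have h : Ideal.span {tri (one3 R) - 1} ≤
        RingHom.ker (aeval (tv R) : MvPolynomial (Fin 1 ⊕ (Fin 1 ⊕ Fin 1)) R →ₐ[R] LL R) := by
      rw [Ideal.span_le, Set.singleton_subset_iff]
      change aeval _ (tri (one3 R) - 1) = 0
      rw [tri_one3, map_sub, map_mul, map_mul, aeval_X, aeval_X, aeval_X, tv_rel, map_one, sub_self]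
    exact h ha)

/-- the coordinates of the hypersurface -/
noncomputable def hx (s : Fin 1 ⊕ (Fin 1 ⊕ Fin 1)) : Hyp (one3 R) := Ideal.Quotient.mk _ (X s)

lemma toLL_hx (s : Fin 1 ⊕ (Fin 1 ⊕ Fin 1)) : toLL R (hx R s) = tv R s := by
  change aeval (tv R) (X s) = _
  rw [aeval_X]

lemma hx_rel : hx R (Sum.inl 0) * hx R (Sum.inr (Sum.inl 0)) * hx R (Sum.inr (Sum.inr 0)) = 1 := by
  have h : Ideal.Quotient.mk (Ideal.span {tri (one3 R) - 1}) (tri (one3 R) - 1) = 0 :=
    Ideal.Quotient.eq_zero_iff_mem.mpr (Ideal.mem_span_singleton_self _)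
  rw [tri_one3, map_sub, map_one, sub_eq_zero, map_mul, map_mul] at h
  rw [← tri_one3] at h
  exact h

/-- the unit `x` -/
noncomputable def ux : (Hyp (one3 R))ˣ where
  val := hx R (Sum.inl 0)
  inv := hx R (Sum.inr (Sum.inl 0)) * hx R (Sum.inr (Sum.inr 0))
  val_inv := by rw [← mul_assoc, hx_rel]
  inv_val := by
    have h := hx_rel R
    linear_combination h

/-- the unit `y` -/
noncomputable def uy : (Hyp (one3 R))ˣ where
  val := hx R (Sum.inr (Sum.inl 0))
  inv := hx R (Sum.inl 0) * hx R (Sum.inr (Sum.inr 0))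
  val_inv := by
    have h := hx_rel R
    linear_combination h
  inv_val := by
    have h := hx_rel R
    linear_combination h

/-- from the torus -/
noncomputable def ofLL : LL R →+* Hyp (one3 R) :=
  LaurentPolynomial.eval₂ (LaurentPolynomial.eval₂ (algebraMap R (Hyp (one3 R))) (uy R)) (ux R)

lemma ofLL_C (a : LaurentPolynomial R) : ofLL R (LaurentPolynomial.C a) =
    LaurentPolynomial.eval₂ (algebraMap R (Hyp (one3 R))) (uy R) a := by
  rw [ofLL, LaurentPolynomial.eval₂_C]

lemma ofLL_T (n : ℤ) : ofLL R (LaurentPolynomial.T n) = ((ux R ^ n : (Hyp (one3 R))ˣ) : Hyp (one3 R)) := by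
  rw [ofLL, LaurentPolynomial.eval₂_T]

lemma ofLL_CT (n : ℤ) : ofLL R (LaurentPolynomial.C (LaurentPolynomial.T n)) =
    ((uy R ^ n : (Hyp (one3 R))ˣ) : Hyp (one3 R)) := by
  rw [ofLL_C, LaurentPolynomial.eval₂_T]

lemma ofLL_tv (s : Fin 1 ⊕ (Fin 1 ⊕ Fin 1)) : ofLL R (tv R s) = hx R s := by
  rcases s with i | i | i
  · rw [Subsingleton.elim i 0]
    change ofLL R (LaurentPolynomial.T 1) = _
    rw [ofLL_T, zpow_one]
    rfl
  · rw [Subsingleton.elim i 0]
    change ofLL R (LaurentPolynomial.C (LaurentPolynomial.T 1)) = _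
    rw [ofLL_CT, zpow_one]
    rfl
  · rw [Subsingleton.elim i 0]
    change ofLL R (LaurentPolynomial.T (-1) * LaurentPolynomial.C (LaurentPolynomial.T (-1))) = _
    rw [map_mul, ofLL_T, ofLL_CT, zpow_neg_one, zpow_neg_one]
    change (hx R (Sum.inr (Sum.inl 0)) * hx R (Sum.inr (Sum.inr 0))) *
      (hx R (Sum.inl 0) * hx R (Sum.inr (Sum.inr 0))) = hx R (Sum.inr (Sum.inr 0))
    have h := hx_rel R
    linear_combination h * hx R (Sum.inr (Sum.inr 0))

lemma ofLL_toLL (a : Hyp (one3 R)) : ofLL R (toLL R a) = a := by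
  have h : ((ofLL R).comp (toLL R).toRingHom).comp (Ideal.Quotient.mk _) =
      (RingHom.id _).comp (Ideal.Quotient.mk (Ideal.span {tri (one3 R) - 1})) := by
    apply MvPolynomial.ringHom_ext
    · intro r
      change ofLL R (toLL R (algebraMap R (Hyp (one3 R)) r)) = algebraMap R (Hyp (one3 R)) r
      rw [AlgHom.commutes]
      change ofLL R (LaurentPolynomial.C (LaurentPolynomial.C r)) = _
      rw [ofLL_C, LaurentPolynomial.eval₂_C]
    · intro s
      change ofLL R (toLL R (hx R s)) = hx R s
      rw [toLL_hx, ofLL_tv]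
  obtain ⟨p, rfl⟩ := Ideal.Quotient.mk_surjective a
  exact congrArg (fun f : MvPolynomial (Fin 1 ⊕ (Fin 1 ⊕ Fin 1)) R →+* Hyp (one3 R) => f p) h

lemma toLL_ofLL (a : LL R) : toLL R (ofLL R a) = a := by
  have h : ((toLL R).toRingHom).comp (ofLL R) = RingHom.id _ := by
    apply laurent_hom_ext
    · intro b
      have h2 : (((toLL R).toRingHom).comp (ofLL R)).comp LaurentPolynomial.C =
          (LaurentPolynomial.C : LaurentPolynomial R →+* LL R) := by
        apply laurent_hom_ext
        · intro r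
          change toLL R (ofLL R (LaurentPolynomial.C (LaurentPolynomial.C r))) = _
          rw [ofLL_C, LaurentPolynomial.eval₂_C, AlgHom.commutes]
          rfl
        · change toLL R (ofLL R (LaurentPolynomial.C (LaurentPolynomial.T 1))) = _
          rw [ofLL_CT, zpow_one]
          exact toLL_hx R (Sum.inr (Sum.inl 0))
      exact congrArg (fun f : LaurentPolynomial R →+* LL R => f b) h2
    · change toLL R (ofLL R (LaurentPolynomial.T 1)) = _
      rw [ofLL_T, zpow_one]
      exact toLL_hx R (Sum.inl 0)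
  exact congrArg (fun f : LL R →+* LL R => f a) h

/-- The hypersurface `x y z = 1` is a torus. -/
noncomputable def cubeE : Hyp (one3 R) ≃ₐ[R] LL R :=
  AlgEquiv.ofRingEquiv (f := { toFun := toLL R
                               invFun := ofLL R
                               left_inv := ofLL_toLL R
                               right_inv := toLL_ofLL R
                               map_mul' := map_mul _
                               map_add' := map_add _ }) (fun r => (toLL R).commutes r)

end Pool.Agent.Q282.UM
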