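import Pool.Agent.Q282.UM.Defs
import Pool.Agent.Q282.UM.Cube
import Pool.Agent.Q282.UM.Rat
import Pool.Agent.Z125.UN.Sym

/-!
# Properties of motives and trilinear forms
-/

set_option autoImplicit false

open CategoryTheory Limits AlgebraicGeometry MvPolynomial Pool.Agent.Y116.UV Pool.Agent.Z125.UN

namespace Pool.Agent.Q282.UM

universe v u

attribute [local instance] Abelian.hasFiniteBiproducts MvPolynomial.gradedAlgebra

/-- Smooth projective schemes are separated and of finite type. -/
lemma ft_projective {k : Type} [Field k] {X : Sch k} (hX : IsSmoothProjective X) : FT True X := by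
  obtain ⟨hs, n, i, hi⟩ := hX
  have ht : IsScalarTower k (forms k n 0) (MvPolynomial (Fin (n + 1)) k) :=
    IsScalarTower.of_algebraMap_eq (R := k) (S := forms k n 0)
      (A := MvPolynomial (Fin (n + 1)) k) (fun r => by rfl)
  have h0 : Algebra.FiniteType (forms k n 0) (MvPolynomial (Fin (n + 1)) k) :=
    Algebra.FiniteType.of_restrictScalars_finiteType k _ _
  have h1 : X.hom = i.left ≫ (projSpace k n).hom := (Over.w i).symm
  have h4 : QuasiCompact (projStr k n) := inferInstanceAs (QuasiCompact (Proj.toSpecZero (forms k n)))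
  have h5 : IsSeparated (projStr k n) := inferInstanceAs (IsSeparated (Proj.toSpecZero (forms k n)))
  have h2 : QuasiCompact (projSpace k n).hom := by
    change QuasiCompact (projStr k n ≫ Spec.map (constants k n))
    infer_instance
  have h3 : IsSeparated (projSpace k n).hom := by
    change IsSeparated (projStr k n ≫ Spec.map (constants k n))
    infer_instance
  refine ⟨inferInstance, ?_, fun _ => ?_⟩
  · rw [h1]
    infer_instance
  · rw [h1]
    infer_instance

lemma dim_hypS {k : Type} [Field k] {a b c : ℕ} (T : Fin a → Fin b → Fin c → k) :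
    ∃ N : ℕ, topologicalKrullDim (hypS T).left ≤ N := by
  refine ⟨Nat.card (Fin a ⊕ (Fin b ⊕ Fin c)), ?_⟩
  have h1 : ringKrullDim (Hyp T) ≤ ringKrullDim (MvPolynomial (Fin a ⊕ (Fin b ⊕ Fin c)) k) :=
    ringKrullDim_quotient_le _
  rw [MvPolynomial.ringKrullDim_of_isNoetherianRing, ringKrullDim_eq_zero_of_field, zero_add] at h1
  exact (topDim_aff (Hyp T)).le.trans h1

/-- `Q` is true for all direct summands of all twists `H^n(X)(m)` of the cohomology of `X`. -/
def GoodS {k : Type} [Field k] {A : Type u} [Category.{v} A] (D : Motives k A) (Q : A → Prop)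
    (X : Sch k) : Prop := ∀ n, Good D.tw Q (D.H n X)

section

variable {k : Type} [Field k] {A : Type u} [Category.{v} A] [Abelian A] {D : Motives k A}
  {Q : A → Prop}

lemma good_space (hD : IsMotives D) (hp : GoodS D Q (aff k k)) (n : ℕ) :
    GoodS D Q (aff k (MvPolynomial (Fin n) k)) := by
  intro j
  have h2 := hD.bundle k (n + 1) (f1 k n) (aff k k) (𝟙 _) ⟨inferInstance, range_id n⟩ j
  obtain ⟨e⟩ := hD.iso (ft_aff True) ⟨affIso (jouOne k n)⟩ j
  exact good_iso ⟨h2.some.symm ≪≫ e.symm⟩ (good_twist hD.tw_add _ (hp j))

lemma good_laurent (hD : IsMotives D) {B : Type} [CommRing B] [Algebra k B]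
    [Algebra.FiniteType k B] (h : GoodS D Q (aff k (LaurentPolynomial B))) : GoodS D Q (aff k B) := by
  intro n
  obtain ⟨e⟩ := hD.torus B n
  have h1 := good_iso ⟨e⟩ (h n)
  exact good_untwist hD.tw_zero hD.tw_add (-1)
    (good_summand ⟨biprod.inl, biprod.fst, biprod.inl_fst⟩ h1)

/-- The property for the hypersurface `x y z = 1` implies the property for the point. -/
lemma good_point (hD : IsMotives D) (h : GoodS D Q (hypS (one3 k))) : GoodS D Q (aff k k) := by
  have h1 := ft_laurent (R := k) k
  have h2 := ft_laurent (R := k) (LaurentPolynomial k)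
  refine good_laurent hD (good_laurent hD ?_)
  intro n
  exact good_iso (hD.iso (ft_aff True) ⟨(affIso (cubeE k)).symm⟩ n) (h n)

variable (hD : IsMotives D) (hQ : SumClosed Q)

include hD hQ

/-- The property of the cohomology has the closure properties `Bnd`. -/
theorem bnd_good (hp : GoodS D Q (aff k k)) : Bnd True fun X : Sch k => GoodS D Q X where
  iso hX e h n := good_iso (hD.iso hX e n) (h n)
  total i j h ht hZ hU n := by
    obtain ⟨a, b, d, a', ⟨h1, e1⟩, h2, h3⟩ := hD.exact i j h ht n
    exact good_exact hD.split hD.additive hQ e1 (hU n) (hZ n)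
  opened {Z X U} i j h ht hZ hX n := by
    obtain ⟨a, b, d, a', h1, h2, ⟨h3, e3⟩⟩ := hD.exact i j h ht (n - 1)
    have h4 : Good D.tw Q (D.H (n - 1 + 1) U) :=
      good_exact hD.split hD.additive hQ e3 (hZ (n - 1)) (hX _)
    have h5 : n - 1 + 1 = n := by ring
    rw [h5] at h4
    exact h4
  closed i j h ht hX hU n := by
    obtain ⟨a, b, d, a', h1, ⟨h2, e2⟩, h3⟩ := hD.exact i j h ht n
    exact good_exact hD.split hD.additive hQ e2 (hX n) (hU (n + 1))
  space := good_space hD hp
  jouanolou B _ _ _ m f U j hj hr h n := by
    have h2 := hD.bundle B m f U j ⟨hj, hr⟩ n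
    exact good_untwist hD.tw_zero hD.tw_add _ (good_iso h2 (h n))
  torus B _ _ _ h := good_laurent hD h
  bundle B _ _ _ m f U j hj hr h n := by
    have h2 := hD.bundle B m f U j ⟨hj, hr⟩ n
    exact good_iso ⟨h2.some.symm⟩ (good_twist hD.tw_add _ (h n))

/-- From smooth projective schemes to all schemes. -/
theorem of_projective {N : ℕ} (h : ∀ X : Sch k, IsSmoothProjective X →
    topologicalKrullDim X.left ≤ N → Good D.tw Q (D.h X)) (X : Sch k) (hX : FT True X)
    (hN : topologicalKrullDim X.left ≤ N) : GoodS D Q X := by
  intro n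
  obtain ⟨r, Y, m, h1, h2⟩ := hD.pieces X hX N hN n
  exact good_summand h2 (good_biproduct hD.split hD.additive hQ _ fun i =>
    good_twist hD.tw_add _ (h (Y i) (h1 i).1 (h1 i).2))

/-- **Universality of trilinear forms for motives.** Let `Q` be a property of motives which is
closed under finite direct sums. All direct summands of the twists of the motives of the smooth
projective schemes of dimension at most `N` have the property `Q` if and only if all direct summands
of the twists of the cohomology of the hypersurfaces `T(x, y, z) = 1` have the property, for all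
trilinear forms `T` one of whose blocks of variables has at most `N + 2` variables. -/
theorem universal_dim [PerfectField k] (N : ℕ) :
    (∀ X : Sch k, IsSmoothProjective X → topologicalKrullDim X.left ≤ N → Good D.tw Q (D.h X)) ↔
    ∀ (a b c : ℕ) (T : Fin a → Fin b → Fin c → k), (a ≤ N + 2 ∨ b ≤ N + 2 ∨ c ≤ N + 2) →
      GoodS D Q (hypS T) := by
  constructor
  · intro h
    have hall := of_projective hD hQ h
    have hp : GoodS D Q (aff k k) := by
      refine hall _ (ft_aff True) ?_
      rw [topDim_aff, ringKrullDim_eq_zero_of_field]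
      exact_mod_cast Nat.zero_le N
    have hB := bnd_good hD hQ hp
    have h2 : ∀ I : Ideal (MvPolynomial (Fin (N + 1)) k),
        GoodS D Q (aff k (MvPolynomial (Fin (N + 1)) k ⧸ I)) :=
      dim_to_closed hB fun B _ _ _ hA => hall _ (ft_aff True) (by rw [topDim_aff]; exact hA)
    intro a b c T hm
    exact of_block hB (fun a b c' hc' T => to_tri hB h2 a b c' hc' T) T hm
  · intro h X hX hN
    have hp : GoodS D Q (aff k k) := good_point hD (h 1 1 1 (one3 k) (Or.inl (by omega)))
    have hB := bnd_good hD hQ hp
    have h3 := (dim_tri hB N).mpr (fun a b T => h a b (N + 2) T (Or.inr (Or.inr le_rfl))) X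
    exact good_iso (hD.projective X hX).1 (h3 (ft_projective hX) hN 0)

/-- **Universality of trilinear forms with coefficients in `S`.** -/
theorem universal_set {S : Set k} (h0 : 0 ∈ S) (h1 : 1 ∈ S) (hS : Presents S) :
    (∀ X : Sch k, IsSmoothProjective X → Good D.tw Q (D.h X)) ↔
    ∀ (a b c : ℕ) (T : Fin a → Fin b → Fin c → k), (∀ i j l, T i j l ∈ S) →
      GoodS D Q (hypS T) := by
  constructor
  · intro h a b c T _
    obtain ⟨N, hN⟩ := dim_hypS T
    exact of_projective hD hQ (fun X hX _ => h X hX) _ (ft_aff True) hN
  · intro h X hX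
    have hp : GoodS D Q (aff k k) := good_point hD (h 1 1 1 (one3 k) fun _ _ _ => h1)
    have hB := bnd_good hD hQ hp
    exact good_iso (hD.projective X hX).1
      (universal hB.toUni h0 h1 h hS X (ft_projective hX) 0)

/-- **Universality of tripartite hypergraphs**, for fields over which all algebras of finite type have
presentations with coefficients `0` and `1`. -/
theorem universal_graph (hS : Presents ({0, 1} : Set k)) :
    (∀ X : Sch k, IsSmoothProjective X → Good D.tw Q (D.h X)) ↔
    ∀ (a b c : ℕ) (E : Finset (Fin a × Fin b × Fin c)), GoodS D Q (tripS k E) := by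
  classical
  rw [universal_set hD hQ (Or.inl rfl) (Or.inr rfl) hS]
  constructor
  · intro h a b c E
    have h1 := h a b c (fun i j l => if (i, j, l) ∈ E then (1 : k) else 0) (by
      intro i j l
      by_cases h2 : (i, j, l) ∈ E
      · exact Or.inr (if_pos h2)
      · exact Or.inl (if_neg h2))
    have h3 : hypS (fun i j l => if (i, j, l) ∈ E then (1 : k) else 0) = tripS k E := by
      unfold hypS tripS Hyp Trip
      rw [tri_ind]
    rw [h3] at h1
    exact h1
  · intro h a b c T hT
    let E : Finset (Fin a × Fin b × Fin c) := Finset.univ.filter fun e => T e.1 e.2.1 e.2.2 = 1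
    have h1 : T = fun i j l => if (i, j, l) ∈ E then (1 : k) else 0 := by
      funext i j l
      have hm : (i, j, l) ∈ E ↔ T i j l = 1 := by
        rw [Finset.mem_filter]
        exact ⟨fun h => h.2, fun h => ⟨Finset.mem_univ _, h⟩⟩
      by_cases h : T i j l = 1
      · rw [if_pos (hm.mpr h), h]
      · rw [if_neg fun h2 => h (hm.mp h2)]
        rcases hT i j l with h2 | h2
        · exact h2
        · exact absurd h2 h
    have h3 : hypS T = tripS k E := by
      rw [h1]
      unfold hypS tripS Hyp Trip
      rw [tri_ind]
    rw [h3]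
    exact h a b c E

end

end Pool.Agent.Q282.UM
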