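import Mathlib

/-!
# Abelian categories in which all monomorphisms split

Classes of objects given by their direct summands.
-/

set_option autoImplicit false

open CategoryTheory Limits

namespace Pool.Agent.Q282.UM

universe v u

attribute [local instance] Abelian.hasFiniteBiproducts

section basic

variable {A : Type u} [Category.{v} A]

/-- Every monomorphism of `A` is the inclusion of a direct summand (`A` is semisimple). -/
def AllSplit (A : Type u) [Category.{v} A] : Prop :=
  ∀ {X Y : A} (f : X ⟶ Y), Mono f → ∃ r : Y ⟶ X, f ≫ r = 𝟙 X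

/-- `N` is a direct summand of `M`. -/
def IsSummand (N M : A) : Prop := ∃ (s : N ⟶ M) (r : M ⟶ N), s ≫ r = 𝟙 N

lemma IsSummand.refl (M : A) : IsSummand M M := ⟨𝟙 M, 𝟙 M, Category.comp_id _⟩

lemma IsSummand.trans {L M N : A} (h : IsSummand L M) (h' : IsSummand M N) : IsSummand L N := by
  obtain ⟨s, r, e⟩ := h
  obtain ⟨s', r', e'⟩ := h'
  exact ⟨s ≫ s', r' ≫ r, by rw [Category.assoc, reassoc_of% e', e]⟩

lemma IsSummand.of_iso {M N : A} (e : M ≅ N) : IsSummand M N := ⟨e.hom, e.inv, e.hom_inv_id⟩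

lemma IsSummand.map {B : Type*} [Category B] {N M : A} (h : IsSummand N M) (F : A ⥤ B) :
    IsSummand (F.obj N) (F.obj M) := by
  obtain ⟨s, r, e⟩ := h
  exact ⟨F.map s, F.map r, by rw [← F.map_comp, e, F.map_id]⟩

lemma IsSummand.of_mono (hA : AllSplit A) {M N : A} (f : N ⟶ M) (hf : Mono f) : IsSummand N M := by
  obtain ⟨r, h⟩ := hA f hf
  exact ⟨f, r, h⟩

end basic

variable {A : Type u} [Category.{v} A] [Abelian A]

/-- The property `Q` of objects is true for the zero objects and for the sums of two objects for which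
it is true. -/
structure SumClosed (Q : A → Prop) : Prop where
  iso : ∀ {M N : A}, Nonempty (M ≅ N) → Q M → Q N
  zero : ∀ M : A, IsZero M → Q M
  sum : ∀ M N : A, Q M → Q N → Q (M ⊞ N)

lemma IsSummand.isZero {M N : A} (h : IsSummand N M) (hM : IsZero M) : IsZero N := by
  obtain ⟨s, r, e⟩ := h
  rw [IsZero.iff_id_eq_zero, ← e, hM.eq_of_tgt s 0, zero_comp]

lemma epi_split (hA : AllSplit A) {X Y : A} (p : X ⟶ Y) [Epi p] : ∃ s : Y ⟶ X, s ≫ p = 𝟙 Y := by
  obtain ⟨r, hr⟩ := hA (kernel.ι p) inferInstance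
  let S : ShortComplex A := ShortComplex.mk (kernel.ι p) p (kernel.condition p)
  have hS : S.Exact := ShortComplex.exact_kernel p
  have : Epi S.g := inferInstanceAs (Epi p)
  let σ := ShortComplex.Splitting.ofExactOfRetraction S hS r hr this
  exact ⟨σ.s, σ.s_g⟩

/-- A direct summand of a sum is the sum of direct summands. -/
lemma summand_sum (hA : AllSplit A) {M N L : A} (h : IsSummand L (M ⊞ N)) :
    ∃ L₁ L₂ : A, IsSummand L₁ M ∧ IsSummand L₂ N ∧ Nonempty (L₁ ⊞ L₂ ≅ L) := by
  obtain ⟨s, r, e⟩ := h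
  have hs : Mono s := (SplitMono.mk r e).mono
  let f : L ⟶ M := s ≫ biprod.fst
  obtain ⟨ρ, hρ⟩ := hA (kernel.ι f) inferInstance
  refine ⟨kernel ρ, kernel f, ?_, ?_, ?_⟩
  · refine IsSummand.of_mono hA (kernel.ι ρ ≫ f) ?_
    apply Preadditive.mono_of_cancel_zero
    intro W x hx
    have h1 : (x ≫ kernel.ι ρ) ≫ f = 0 := by rw [Category.assoc, hx]
    have h2 : kernel.lift f (x ≫ kernel.ι ρ) h1 = 0 := by
      have h3 : kernel.lift f (x ≫ kernel.ι ρ) h1 ≫ (kernel.ι f ≫ ρ) =
          (x ≫ kernel.ι ρ) ≫ ρ := by rw [← Category.assoc, kernel.lift_ι]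
      rw [hρ, Category.comp_id, Category.assoc, kernel.condition, comp_zero] at h3
      exact h3
    have h4 : x ≫ kernel.ι ρ = 0 := by
      rw [← kernel.lift_ι f (x ≫ kernel.ι ρ) h1, h2, zero_comp]
    rw [← cancel_mono (kernel.ι ρ), h4, zero_comp]
  · refine IsSummand.of_mono hA (kernel.ι f ≫ s ≫ biprod.snd) ?_
    apply Preadditive.mono_of_cancel_zero
    intro W x hx
    have h1 : x ≫ kernel.ι f ≫ s = 0 := by
      apply biprod.hom_ext
      · rw [zero_comp, Category.assoc, Category.assoc]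
        change x ≫ kernel.ι f ≫ f = 0
        rw [kernel.condition, comp_zero]
      · rw [zero_comp, Category.assoc, Category.assoc]
        exact hx
    rw [← Category.assoc] at h1
    have h2 := (cancel_mono s).mp (h1.trans (zero_comp).symm)
    exact (cancel_mono (kernel.ι f)).mp (h2.trans (zero_comp).symm)
  · let S : ShortComplex A := ShortComplex.mk (kernel.ι ρ) ρ (kernel.condition ρ)
    have hS : S.Exact := ShortComplex.exact_kernel ρ
    have : Mono S.f := inferInstanceAs (Mono (kernel.ι ρ))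
    let σ := ShortComplex.Splitting.ofExactOfSection S hS (kernel.ι f) hρ this
    exact ⟨σ.isoBinaryBiproduct.symm⟩

/-- The middle term of an exact sequence is a direct summand of the sum of the outer terms. -/
lemma summand_of_exact (hA : AllSplit A) {S : ShortComplex A} (hS : S.Exact) :
    IsSummand S.X₂ (S.X₁ ⊞ S.X₃) := by
  let ι := kernel.ι S.g
  let p : S.X₁ ⟶ kernel S.g := kernel.lift S.g S.f S.zero
  have hp : Epi p := hS.epi_kernelLift
  have hpι : p ≫ ι = S.f := kernel.lift_ι _ _ _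
  obtain ⟨σ, hσ⟩ := epi_split hA p
  let e : S.X₂ ⟶ Abelian.image S.g := Abelian.factorThruImage S.g
  let m : Abelian.image S.g ⟶ S.X₃ := Abelian.image.ι S.g
  have hem : e ≫ m = S.g := Abelian.image.fac S.g
  have he : Epi e := inferInstanceAs (Epi (Abelian.factorThruImage S.g))
  have hm : Mono m := inferInstanceAs (Mono (Abelian.image.ι S.g))
  obtain ⟨r', hr'⟩ := hA m hm
  have hz : ι ≫ e = 0 := by
    rw [← cancel_mono m, Category.assoc, hem, zero_comp]
    exact kernel.condition S.g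
  let T : ShortComplex A := ShortComplex.mk ι e hz
  have hT : T.Exact := by
    have h1 : (ShortComplex.mk (kernel.ι S.g) S.g (kernel.condition S.g)).Exact :=
      ShortComplex.exact_kernel S.g
    rw [ShortComplex.exact_iff_exact_up_to_refinements] at h1 ⊢
    intro W x hx
    refine h1 x ?_
    change x ≫ S.g = 0
    rw [← hem]
    change x ≫ e = 0 at hx
    rw [← Category.assoc, hx, zero_comp]
  obtain ⟨ρ, hρ⟩ := hA ι inferInstance
  have : Epi T.g := he
  let τ := ShortComplex.Splitting.ofExactOfRetraction T hT ρ hρ this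
  have h1 : τ.r ≫ ι + e ≫ τ.s = 𝟙 _ := τ.id
  refine ⟨biprod.lift (τ.r ≫ σ) S.g, biprod.desc S.f (r' ≫ τ.s), ?_⟩
  have h2 : S.g ≫ r' ≫ τ.s = e ≫ τ.s := by
    have h3 : S.g ≫ r' = e := by
      calc S.g ≫ r' = (e ≫ m) ≫ r' := by rw [hem]
        _ = e := by rw [Category.assoc, hr', Category.comp_id]
    rw [← Category.assoc, h3]
  have h4 : (τ.r ≫ σ) ≫ S.f = τ.r ≫ ι := by
    calc (τ.r ≫ σ) ≫ S.f = (τ.r ≫ σ) ≫ p ≫ ι := by rw [hpι]
      _ = τ.r ≫ ι := by rw [Category.assoc, reassoc_of% hσ]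
  rw [biprod.lift_desc, h2, h4]
  exact h1

section good

variable (tw : ℤ → A ⥤ A) (Q : A → Prop)

/-- The property `Q` is true for all direct summands of all twists of `M`. -/
def Good (M : A) : Prop := ∀ (n : ℤ) (N : A), IsSummand N ((tw n).obj M) → Q N

variable {tw Q}

lemma good_summand {M N : A} (h : IsSummand N M) (hM : Good tw Q M) : Good tw Q N :=
  fun n _ hL => hM n _ (hL.trans (h.map (tw n)))

lemma good_iso {M N : A} (e : Nonempty (M ≅ N)) (hM : Good tw Q M) : Good tw Q N :=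
  good_summand (IsSummand.of_iso e.some.symm) hM

lemma good_twist (hadd : ∀ m n : ℤ, Nonempty (tw (m + n) ≅ tw m ⋙ tw n)) (m : ℤ) {M : A}
    (hM : Good tw Q M) : Good tw Q ((tw m).obj M) := by
  intro n N hN
  obtain ⟨e⟩ := hadd m n
  exact hM (m + n) N (hN.trans (IsSummand.of_iso (e.app M).symm))

lemma good_untwist (h0 : Nonempty (tw 0 ≅ 𝟭 A))
    (hadd : ∀ m n : ℤ, Nonempty (tw (m + n) ≅ tw m ⋙ tw n)) (m : ℤ) {M : A}
    (hM : Good tw Q ((tw m).obj M)) : Good tw Q M := by
  have h1 := good_twist hadd (-m) hM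
  obtain ⟨e⟩ := hadd m (-m)
  obtain ⟨e0⟩ := h0
  have h2 : M ≅ (tw (-m)).obj ((tw m).obj M) :=
    (e0.app M).symm ≪≫ (eqToIso (by rw [add_neg_cancel]) : (tw 0).obj M ≅ (tw (m + -m)).obj M) ≪≫
      e.app M
  exact good_iso ⟨h2.symm⟩ h1

lemma good_zero (ha : ∀ n, (tw n).Additive) (hQ : SumClosed Q) {M : A} (hM : IsZero M) :
    Good tw Q M := by
  intro n N hN
  have := ha n
  exact hQ.zero N (hN.isZero ((tw n).map_isZero hM))

lemma good_sum (hA : AllSplit A) (ha : ∀ n, (tw n).Additive) (hQ : SumClosed Q) {M N : A}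
    (hM : Good tw Q M) (hN : Good tw Q N) : Good tw Q (M ⊞ N) := by
  intro n L hL
  have := ha n
  have h1 : IsSummand L ((tw n).obj M ⊞ (tw n).obj N) := by
    refine hL.trans ⟨biprod.lift ((tw n).map biprod.fst) ((tw n).map biprod.snd),
      biprod.desc ((tw n).map biprod.inl) ((tw n).map biprod.inr), ?_⟩
    rw [biprod.lift_desc, ← Functor.map_comp, ← Functor.map_comp, ← Functor.map_add, biprod.total,
      CategoryTheory.Functor.map_id]
  obtain ⟨L₁, L₂, h2, h3, h4⟩ := summand_sum hA h1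
  exact hQ.iso h4 (hQ.sum _ _ (hM n _ h2) (hN n _ h3))

lemma good_exact (hA : AllSplit A) (ha : ∀ n, (tw n).Additive) (hQ : SumClosed Q)
    {S : ShortComplex A} (hS : S.Exact) (h1 : Good tw Q S.X₁) (h3 : Good tw Q S.X₃) :
    Good tw Q S.X₂ :=
  good_summand (summand_of_exact hA hS) (good_sum hA ha hQ h1 h3)

lemma good_biproduct (hA : AllSplit A) (ha : ∀ n, (tw n).Additive) (hQ : SumClosed Q) :
    ∀ {m : ℕ} (M : Fin m → A), (∀ i, Good tw Q (M i)) → Good tw Q (⨁ M)
  | 0, M, _ => good_zero ha hQ (by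
      rw [IsZero.iff_id_eq_zero]
      apply biproduct.hom_ext
      intro i
      exact i.elim0)
  | m + 1, M, h => by
      have h1 : Good tw Q (⨁ fun i : Fin m => M i.succ) :=
        good_biproduct hA ha hQ _ fun i => h i.succ
      refine good_summand (N := ⨁ M) (M := M 0 ⊞ ⨁ fun i : Fin m => M i.succ) ?_
        (good_sum hA ha hQ (h 0) h1)
      refine ⟨biprod.lift (biproduct.π M 0) (biproduct.lift fun i => biproduct.π M i.succ),
        biprod.desc (biproduct.ι M 0) (biproduct.desc fun i => biproduct.ι M i.succ), ?_⟩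
      rw [biprod.lift_desc, biproduct.lift_desc, ← Fin.sum_univ_succ fun i =>
        biproduct.π M i ≫ biproduct.ι M i, biproduct.total]

end good

end Pool.Agent.Q282.UM
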