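import Pool.Agent.Q282.UM.Cat
import Pool.Agent.Y116.UV.Defs

/-!
# Pure motives and the cohomology with compact supports with values in pure motives
-/

set_option autoImplicit false

open CategoryTheory Limits AlgebraicGeometry Pool.Agent.Y116.UV

namespace Pool.Agent.Q282.UM

universe v u

attribute [local instance] Abelian.hasFiniteBiproducts MvPolynomial.gradedAlgebra

section projective

variable (k : Type) [Field k] (n : ℕ)

/-- The homogeneous polynomials over `k` in `n + 1` variables. -/
noncomputable abbrev forms : ℕ → Submodule k (MvPolynomial (Fin (n + 1)) k) :=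
  MvPolynomial.homogeneousSubmodule (Fin (n + 1)) k

/-- The ring of the homogeneous polynomials of degree zero. -/
noncomputable def ringZero : CommRingCat := CommRingCat.of (forms k n 0)

/-- The inclusion of the constants. -/
noncomputable def constHom : k →+* forms k n 0 := algebraMap k (forms k n 0)

/-- The inclusion of the constants. -/
noncomputable def constants : CommRingCat.of k ⟶ ringZero k n := CommRingCat.ofHom (constHom k n)

/-- The scheme `Proj k[x_0, …, x_n]`. -/
noncomputable def projScheme : Scheme := Proj (forms k n)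

/-- The morphism from `Proj k[x_0, …, x_n]` to the spectrum of the ring of forms of degree zero. -/
noncomputable def projStr : projScheme k n ⟶ Spec (ringZero k n) := Proj.toSpecZero (forms k n)

/-- The projective space of dimension `n` over the field `k`. -/
noncomputable def projSpace : Sch k := Over.mk (projStr k n ≫ Spec.map (constants k n))

end projective

/-- `X` is a smooth closed subscheme of a projective space over `k`. -/
def IsSmoothProjective {k : Type} [Field k] (X : Sch k) : Prop :=
  Smooth X.hom ∧ ∃ (n : ℕ) (i : X ⟶ projSpace k n), IsClosedImmersion i.left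

/-- The affine scheme `Spec B[w_1, …, w_m] / (∑ f_l w_l - 1)`. -/
noncomputable def jouS {k B : Type} [Field k] [CommRing B] [Algebra k B] {m : ℕ} (f : Fin m → B) :
    Sch k := aff k (Jou f)

/-- The product of `Spec B` with the multiplicative group. -/
noncomputable def torS (k B : Type) [Field k] [CommRing B] [Algebra k B] : Sch k :=
  aff k (LaurentPolynomial B)

/-- `j` is the inclusion of the complement of `f = 0` in `Spec B`. -/
def IsComplementOf {k B : Type} [Field k] [CommRing B] [Algebra k B] {m : ℕ} (f : Fin m → B)
    {U : Sch k} (j : U ⟶ aff k B) : Prop :=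
  IsOpenImmersion j.left ∧ Set.range j.left = {x : PrimeSpectrum B | ∃ l, f l ∉ x.asIdeal}

/-- The sequence `X → Y → Z` is exact. -/
def ExactAt {A : Type u} [Category.{v} A] [Abelian A] {X Y Z : A} (f : X ⟶ Y) (g : Y ⟶ Z) : Prop :=
  ∃ w : f ≫ g = 0, (ShortComplex.mk f g w).Exact

/-- `h X` is the motive of the smooth projective scheme `X`, `tw n` is the twist by the Tate object
`1(n)`, and `H j X`, for a scheme `X` of finite type, is the `j`-th cohomology object of the weight
complex of `X` (with compact supports). In terms of realizations it is the sum over all `w` of the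
graded pieces of weight `w` of the cohomology of `X` with compact supports in degree `w + j`. -/
structure Motives (k : Type) [Field k] (A : Type u) [Category.{v} A] where
  h : Sch k → A
  tw : ℤ → A ⥤ A
  H : ℤ → Sch k → A

/-- The standard properties of a semisimple abelian category `A` of pure motives over the field `k` and
of the cohomology with compact supports with values in `A`.

* `split`: `A` is semisimple;
* `additive`, `tw_zero`, `tw_add`: the Tate twists;
* `iso`: isomorphic schemes have isomorphic cohomology;
* `exact`: the long exact sequence `H^n(U) → H^n(X) → H^n(Z) → H^(n+1)(U) → H^(n+1)(X)` for a closed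
  subscheme `Z` of `X` and its complement `U`;
* `bundle`: the cohomology of the affine bundle `Spec B[w_1, …, w_m] / (∑ f_l w_l - 1) → U` with fibre
  `𝔸^(m-1)`, where `U` is the complement of `f = 0` in `Spec B`, is the one of `U` twisted by `1 - m`;
* `torus`: `H^n(X × 𝔾_m) = H^n(X)(-1) ⊕ H^(n-1)(X)`;
* `projective`: `H^0(X) = h(X)` and `H^n(X) = 0` for `n ≠ 0` if `X` is smooth and projective;
* `pieces`: `H^n(X)` is a direct summand of a sum of motives `h(Y)(m)` of smooth projective schemes `Y`
  whose dimension is at most the dimension of `X`. -/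
structure IsMotives {k : Type} [Field k] {A : Type u} [Category.{v} A] [Abelian A]
    (D : Motives k A) : Prop where
  split : AllSplit A
  additive : ∀ n, (D.tw n).Additive
  tw_zero : Nonempty (D.tw 0 ≅ 𝟭 A)
  tw_add : ∀ m n : ℤ, Nonempty (D.tw (m + n) ≅ D.tw m ⋙ D.tw n)
  iso : ∀ {X Y : Sch k}, FT True X → Nonempty (X ≅ Y) → ∀ n, Nonempty (D.H n X ≅ D.H n Y)
  exact : ∀ {Z X U : Sch k} (i : Z ⟶ X) (j : U ⟶ X), FT True X → IsTriple i j → ∀ n : ℤ,
    ∃ (a : D.H n U ⟶ D.H n X) (b : D.H n X ⟶ D.H n Z) (d : D.H n Z ⟶ D.H (n + 1) U)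
      (a' : D.H (n + 1) U ⟶ D.H (n + 1) X), ExactAt a b ∧ ExactAt b d ∧ ExactAt d a'
  bundle : ∀ (B : Type) [CommRing B] [Algebra k B] [Algebra.FiniteType k B] (m : ℕ)
    (f : Fin m → B) (U : Sch k) (j : U ⟶ aff k B), IsComplementOf f j → ∀ n,
    Nonempty (D.H n (jouS f) ≅ (D.tw (1 - m)).obj (D.H n U))
  torus : ∀ (B : Type) [CommRing B] [Algebra k B] [Algebra.FiniteType k B] (n : ℤ),
    Nonempty (D.H n (torS k B) ≅ (D.tw (-1)).obj (D.H n (aff k B)) ⊞ D.H (n - 1) (aff k B))
  projective : ∀ X : Sch k, IsSmoothProjective X →
    Nonempty (D.H 0 X ≅ D.h X) ∧ ∀ n ≠ 0, IsZero (D.H n X)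
  pieces : ∀ X : Sch k, FT True X → ∀ N : ℕ, topologicalKrullDim X.left ≤ N → ∀ n : ℤ,
    ∃ (r : ℕ) (Y : Fin r → Sch k) (m : Fin r → ℤ),
      (∀ i, IsSmoothProjective (Y i) ∧ topologicalKrullDim (Y i).left ≤ N) ∧
      IsSummand (D.H n X) (⨁ fun i => (D.tw (m i)).obj (D.h (Y i)))

end Pool.Agent.Q282.UM
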