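import Pool.Agent.Q282.UM.Real

/-!
# The statements for all motives and for the motives of trilinear hypersurfaces
-/

set_option autoImplicit false

open CategoryTheory Limits AlgebraicGeometry Pool.Agent.Y116.UV Pool.Agent.Z125.UN

namespace Pool.Agent.Q282.UM

universe v u

section

variable {k : Type} [Field k] {A : Type u} [Category.{v} A]

/-- All direct summands of the twists `h(X)(n)` of the motives of the smooth projective schemes `X` of
dimension at most `N` have the property `Q`. -/
def ForVarieties (D : Motives k A) (Q : A → Prop) (N : ℕ) : Prop :=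
  ∀ X : Sch k, IsSmoothProjective X → topologicalKrullDim X.left ≤ N →
    ∀ (n : ℤ) (M : A), IsSummand M ((D.tw n).obj (D.h X)) → Q M

/-- All direct summands of the twists `H^j(Y)(n)` of the cohomology of the hypersurfaces
`Y : T(x, y, z) = 1` have the property `Q`, for all trilinear forms `T` over `k` with a block of at
most `N + 2` variables. -/
def ForForms (D : Motives k A) (Q : A → Prop) (N : ℕ) : Prop :=
  ∀ (a b c : ℕ) (T : Fin a → Fin b → Fin c → k), (a ≤ N + 2 ∨ b ≤ N + 2 ∨ c ≤ N + 2) →
    ∀ (j n : ℤ) (M : A), IsSummand M ((D.tw n).obj (D.H j (hypS T))) → Q M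

/-- The same for all trilinear forms `T` over `k`. -/
def ForAllForms (D : Motives k A) (Q : A → Prop) : Prop :=
  ∀ (a b c : ℕ) (T : Fin a → Fin b → Fin c → k) (j n : ℤ) (M : A),
    IsSummand M ((D.tw n).obj (D.H j (hypS T))) → Q M

/-- The same for the hypersurfaces `Y : ∑_{(i, j, l) ∈ E} x_i y_j z_l = 1` of all finite sets `E` of
triples (tripartite hypergraphs). -/
def ForHypergraphs (D : Motives k A) (Q : A → Prop) : Prop :=
  ∀ (a b c : ℕ) (E : Finset (Fin a × Fin b × Fin c)) (j n : ℤ) (M : A),
    IsSummand M ((D.tw n).obj (D.H j (tripS k E))) → Q M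

/-- Every object of `A` is a direct summand of a motive `h(X)(n)` with `X` smooth and projective. -/
def IsGenerated (D : Motives k A) : Prop :=
  ∀ M : A, ∃ (X : Sch k) (n : ℤ), IsSmoothProjective X ∧ IsSummand M ((D.tw n).obj (D.h X))

end

variable {A : Type u} [Category.{v} A] [Abelian A] {Q : A → Prop} (hQ : SumClosed Q)

include hQ

theorem pack_dim {k : Type} [Field k] [PerfectField k] {D : Motives k A} (hD : IsMotives D) (N : ℕ) :
    ForVarieties D Q N ↔ ForForms D Q N :=
  universal_dim hD hQ N

theorem pack_all {k : Type} [Field k] {D : Motives k A} (hD : IsMotives D) (hg : IsGenerated D) :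
    (∀ M : A, Q M) ↔ ForAllForms D Q := by
  have h := universal_set (Q := Q) hD hQ (Set.mem_univ 0) (Set.mem_univ 1) presents_univ
  constructor
  · intro h1 a b c T j n M _
    exact h1 M
  · intro h1 M
    obtain ⟨X, n, hX, hM⟩ := hg M
    exact h.mpr (fun a b c T _ j => h1 a b c T j) X hX n M hM

theorem pack_graph {k : Type} [Field k] (hk : Presents ({0, 1} : Set k)) {D : Motives k A}
    (hD : IsMotives D) (hg : IsGenerated D) : (∀ M : A, Q M) ↔ ForHypergraphs D Q := by
  have h := universal_graph (Q := Q) hD hQ hk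
  constructor
  · intro h1 a b c E j n M _
    exact h1 M
  · intro h1 M
    obtain ⟨X, n, hX, hM⟩ := hg M
    exact h.mpr (fun a b c E j => h1 a b c E j) X hX n M hM

theorem pack_rat {D : Motives ℚ A} (hD : IsMotives D) (hg : IsGenerated D) :
    (∀ M : A, Q M) ↔ ForHypergraphs D Q :=
  pack_graph hQ presents_rat hD hg

theorem pack_prime {p : ℕ} [Fact p.Prime] {D : Motives (ZMod p) A} (hD : IsMotives D)
    (hg : IsGenerated D) : (∀ M : A, Q M) ↔ ForHypergraphs D Q :=
  pack_graph hQ (presents_zero_one ZMod.intCast_surjective) hD hg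

end Pool.Agent.Q282.UM
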