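import Pool.Agent.Q282.UM.Main

/-!
# Realizations: properties of motives which are closed under direct sums
-/

set_option autoImplicit false

open CategoryTheory Limits

namespace Pool.Agent.Q282.UM

universe v u w

section nat

variable {A : Type u} [Category.{v} A] {K : Type w} [Ring K]

/-- The image of `x` under the homomorphism of realizations given by `f`. -/
def ap (F : A ⥤ ModuleCat.{w} K) {M N : A} (f : M ⟶ N) (x : F.obj M) : F.obj N := (F.map f).hom x

/-- The operators `ρ M g` on the realizations commute with the homomorphisms given by morphisms. -/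
def NatOps (F : A ⥤ ModuleCat.{w} K) {Γ : Type} (ρ : ∀ M : A, Γ → (F.obj M →ₗ[K] F.obj M)) : Prop :=
  ∀ {M N : A} (f : M ⟶ N) (g : Γ) (x : F.obj M), ap F f (ρ M g x) = ρ N g (ap F f x)

/-- The subspaces `S M` of the realizations are functorial. -/
def NatSub (F : A ⥤ ModuleCat.{w} K) (S : ∀ M : A, Submodule K (F.obj M)) : Prop :=
  ∀ {M N : A} (f : M ⟶ N) (x : F.obj M), x ∈ S M → ap F f x ∈ S N

/-- The additive maps `c M` between two realizations are functorial. -/
def NatMap (F : A ⥤ ModuleCat.{w} K) {K' : Type w} [Ring K'] (G : A ⥤ ModuleCat.{w} K')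
    (c : ∀ M : A, F.obj M →+ G.obj M) : Prop :=
  ∀ {M N : A} (f : M ⟶ N) (x : F.obj M), ap G f (c M x) = c N (ap F f x)

end nat

section

variable {A : Type u} [Category.{v} A] [Abelian A]

lemma SumClosed.and {Q Q' : A → Prop} (h : SumClosed Q) (h' : SumClosed Q') :
    SumClosed fun M => Q M ∧ Q' M where
  iso e hM := ⟨h.iso e hM.1, h'.iso e hM.2⟩
  zero M hM := ⟨h.zero M hM, h'.zero M hM⟩
  sum M N hM hN := ⟨h.sum M N hM.1 hN.1, h'.sum M N hM.2 hN.2⟩

lemma SumClosed.all {ι : Sort*} {Q : ι → A → Prop} (h : ∀ i, SumClosed (Q i)) :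
    SumClosed fun M => ∀ i, Q i M where
  iso e hM i := (h i).iso e (hM i)
  zero M hM i := (h i).zero M hM
  sum M N hM hN i := (h i).sum M N (hM i) (hN i)

variable {K : Type w} [Ring K] (F : A ⥤ ModuleCat.{w} K) [F.Additive]

lemma map_inl_add_inr (M N : A) (x : F.obj (M ⊞ N)) :
    (F.map (biprod.inl : M ⟶ M ⊞ N)).hom ((F.map (biprod.fst : M ⊞ N ⟶ M)).hom x) +
      (F.map (biprod.inr : N ⟶ M ⊞ N)).hom ((F.map (biprod.snd : M ⊞ N ⟶ N)).hom x) = x := by
  have h : F.map (biprod.fst : M ⊞ N ⟶ M) ≫ F.map biprod.inl +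
      F.map (biprod.snd : M ⊞ N ⟶ N) ≫ F.map biprod.inr = 𝟙 (F.obj (M ⊞ N)) := by
    rw [← F.map_comp, ← F.map_comp, ← F.map_add, biprod.total, F.map_id]
  have h2 := congrArg (fun g : F.obj (M ⊞ N) ⟶ F.obj (M ⊞ N) => g.hom x) h
  exact h2

lemma obj_zero {M : A} (hM : IsZero M) (x : F.obj M) : x = 0 := by
  have h1 : IsZero (F.obj M) := F.map_isZero hM
  have h2 : (𝟙 (F.obj M) : F.obj M ⟶ F.obj M) = 0 := h1.eq_of_src _ _
  exact congrArg (fun g : F.obj M ⟶ F.obj M => g.hom x) h2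

lemma map_iso_inv {M N : A} (e : M ≅ N) (x : F.obj N) :
    (F.map e.hom).hom ((F.map e.inv).hom x) = x := by
  have h : F.map e.inv ≫ F.map e.hom = 𝟙 _ := by
    rw [← F.map_comp, e.inv_hom_id, F.map_id]
  exact congrArg (fun g : F.obj N ⟶ F.obj N => g.hom x) h

/-- The property that the elements of `T` lie in `S`. -/
lemma sumClosed_classes (S : ∀ M, AddSubmonoid (F.obj M)) (T : ∀ M, F.obj M → Prop)
    (hS : ∀ {M N : A} (f : M ⟶ N) (x : F.obj M), x ∈ S M → (F.map f).hom x ∈ S N)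
    (hT : ∀ {M N : A} (f : M ⟶ N) (x : F.obj M), T M x → T N ((F.map f).hom x)) :
    SumClosed fun M => ∀ x : F.obj M, T M x → x ∈ S M where
  iso {M N} e hM x hx := by
    obtain ⟨e⟩ := e
    rw [← map_iso_inv F e x]
    exact hS e.hom _ (hM _ (hT e.inv x hx))
  zero M hM x _ := by
    rw [obj_zero F hM x]
    exact zero_mem _
  sum M N hM hN x hx := by
    rw [← map_inl_add_inr F M N x]
    exact add_mem (hS _ _ (hM _ (hT _ x hx))) (hS _ _ (hN _ (hT _ x hx)))

end

section semisimple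

variable {A : Type u} [Category.{v} A] [Abelian A] {K : Type w} [Field K] (F : A ⥤ ModuleCat.{w} K)
  [F.Additive] {Γ : Type} (ρ : ∀ M : A, Γ → (F.obj M →ₗ[K] F.obj M))

/-- The subspace `W` is stable under the operators `ρ M g`. -/
def StableSub (M : A) (W : Submodule K (F.obj M)) : Prop := ∀ (g : Γ), ∀ x ∈ W, ρ M g x ∈ W

/-- Every stable subspace has a stable complement. -/
def SemisimpleAt (M : A) : Prop :=
  ∀ W : Submodule K (F.obj M), StableSub F ρ M W → ∃ W', StableSub F ρ M W' ∧ IsCompl W W'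

variable (hρ : ∀ {M N : A} (f : M ⟶ N) (g : Γ) (x : F.obj M),
    (F.map f).hom (ρ M g x) = ρ N g ((F.map f).hom x))

include hρ

lemma stable_comap {M N : A} (f : M ⟶ N) {W : Submodule K (F.obj N)} (hW : StableSub F ρ N W) :
    StableSub F ρ M (W.comap (F.map f).hom) := by
  intro g x hx
  rw [Submodule.mem_comap, hρ]
  exact hW g _ hx

lemma stable_map {M N : A} (f : M ⟶ N) {W : Submodule K (F.obj M)} (hW : StableSub F ρ M W) :
    StableSub F ρ N (W.map (F.map f).hom) := by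
  rintro g _ ⟨x, hx, rfl⟩
  exact ⟨ρ M g x, hW g x hx, hρ f g x⟩

omit hρ in
lemma stable_sup {M : A} {W W' : Submodule K (F.obj M)} (h : StableSub F ρ M W)
    (h' : StableSub F ρ M W') : StableSub F ρ M (W ⊔ W') := by
  intro g x hx
  obtain ⟨y, hy, z, hz, rfl⟩ := Submodule.mem_sup.mp hx
  rw [map_add]
  exact Submodule.add_mem_sup (h g y hy) (h' g z hz)

/-- Semisimplicity is closed under direct sums. -/
lemma sumClosed_semisimple : SumClosed (SemisimpleAt F ρ) where
  iso {M N} e hM W hW := by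
    obtain ⟨e⟩ := e
    obtain ⟨W', h1, h2⟩ := hM _ (stable_comap F ρ hρ e.hom hW)
    have h3 : ∀ x : F.obj M, (F.map e.inv).hom ((F.map e.hom).hom x) = x := map_iso_inv F e.symm
    have h4 : ∀ x : F.obj N, (F.map e.hom).hom ((F.map e.inv).hom x) = x := map_iso_inv F e
    refine ⟨W'.comap (F.map e.inv).hom, stable_comap F ρ hρ e.inv h1, ?_⟩
    rw [isCompl_iff, Submodule.disjoint_def, codisjoint_iff, Submodule.eq_top_iff'] at h2 ⊢
    constructor
    · intro x hx hx'
      have h5 := h2.1 ((F.map e.inv).hom x) (by rw [Submodule.mem_comap, h4]; exact hx) hx'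
      rw [← h4 x, h5, map_zero]
    · intro x
      obtain ⟨y, hy, z, hz, h5⟩ := Submodule.mem_sup.mp (h2.2 ((F.map e.inv).hom x))
      refine Submodule.mem_sup.mpr ⟨(F.map e.hom).hom y, hy, (F.map e.hom).hom z, ?_, ?_⟩
      · rw [Submodule.mem_comap, h3]
        exact hz
      · rw [← map_add, h5, h4]
  zero M hM W _ := by
    refine ⟨⊤, fun _ _ _ => Submodule.mem_top, ?_⟩
    have h : W = ⊥ := by
      rw [eq_bot_iff]
      intro x _
      rw [obj_zero F hM x]
      exact zero_mem _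
    rw [h]
    exact isCompl_bot_top
  sum M N hM hN W hW := by
    let i₁ := (F.map (biprod.inl : M ⟶ M ⊞ N)).hom
    let i₂ := (F.map (biprod.inr : N ⟶ M ⊞ N)).hom
    let p₁ := (F.map (biprod.fst : M ⊞ N ⟶ M)).hom
    let p₂ := (F.map (biprod.snd : M ⊞ N ⟶ N)).hom
    have hsum : ∀ x, i₁ (p₁ x) + i₂ (p₂ x) = x := map_inl_add_inr F M N
    have h11 : ∀ x, p₁ (i₁ x) = x := by
      intro x
      have h : F.map (biprod.inl : M ⟶ M ⊞ N) ≫ F.map biprod.fst = 𝟙 _ := by
        rw [← F.map_comp, biprod.inl_fst, F.map_id]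
      exact congrArg (fun g : F.obj M ⟶ F.obj M => g.hom x) h
    have h22 : ∀ x, p₂ (i₂ x) = x := by
      intro x
      have h : F.map (biprod.inr : N ⟶ M ⊞ N) ≫ F.map biprod.snd = 𝟙 _ := by
        rw [← F.map_comp, biprod.inr_snd, F.map_id]
      exact congrArg (fun g : F.obj N ⟶ F.obj N => g.hom x) h
    have h12 : ∀ x, p₁ (i₂ x) = 0 := by
      intro x
      have h : F.map (biprod.inr : N ⟶ M ⊞ N) ≫ F.map biprod.fst = 0 := by
        rw [← F.map_comp, biprod.inr_fst, F.map_zero]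
      exact congrArg (fun g : F.obj N ⟶ F.obj M => g.hom x) h
    have h21 : ∀ x, p₂ (i₁ x) = 0 := by
      intro x
      have h : F.map (biprod.inl : M ⟶ M ⊞ N) ≫ F.map biprod.snd = 0 := by
        rw [← F.map_comp, biprod.inl_snd, F.map_zero]
      exact congrArg (fun g : F.obj M ⟶ F.obj N => g.hom x) h
    obtain ⟨U₁, hU₁, c₁⟩ := hM (W.comap i₁) (stable_comap F ρ hρ _ hW)
    obtain ⟨U₂, hU₂, c₂⟩ := hN (W.map p₂) (stable_map F ρ hρ _ hW)
    refine ⟨U₁.map i₁ ⊔ U₂.map i₂,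
      stable_sup F ρ (stable_map F ρ hρ _ hU₁) (stable_map F ρ hρ _ hU₂), ?_⟩
    rw [isCompl_iff, Submodule.disjoint_def, codisjoint_iff, Submodule.eq_top_iff'] at c₁ c₂ ⊢
    constructor
    · intro x hx hx'
      obtain ⟨_, ⟨y, hy, rfl⟩, _, ⟨z, hz, rfl⟩, h5⟩ := Submodule.mem_sup.mp hx'
      have h6 : p₂ x = z := by rw [← h5, map_add, h21, h22, zero_add]
      have h7 : z = 0 := c₂.1 z ⟨x, hx, h6⟩ hz
      rw [h7, map_zero, add_zero] at h5
      have h8 : y = 0 := c₁.1 y (by rw [Submodule.mem_comap, h5]; exact hx) hy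
      rw [← h5, h8, map_zero]
    · intro x
      obtain ⟨_, ⟨w, hw, rfl⟩, z, hz, h5⟩ := Submodule.mem_sup.mp (c₂.2 (p₂ x))
      obtain ⟨y, hy, u, hu, h6⟩ := Submodule.mem_sup.mp (c₁.2 (p₁ (x - w)))
      refine Submodule.mem_sup.mpr ⟨w + i₁ y, add_mem hw hy, i₁ u + i₂ z,
        Submodule.add_mem_sup ⟨u, hu, rfl⟩ ⟨z, hz, rfl⟩, ?_⟩
      have h7 := hsum (x - w)
      have h8 : p₂ (x - w) = z := by rw [map_sub, ← h5, add_sub_cancel_left]
      rw [h8, ← h6, map_add] at h7
      calc w + i₁ y + (i₁ u + i₂ z) = w + (i₁ y + i₁ u + i₂ z) := by abel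
        _ = x := by rw [h7, add_sub_cancel]

end semisimple

end Pool.Agent.Q282.UM
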